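import Pool.Agent.Helper1.T8.SW1

set_option autoImplicit false

/-!
MP_2f9829_co, T8: module SW2 (switching at an edge with two deficient ends).
-/

open Finset

namespace Pool.Agent.Helper20.T8

open Pool.Agent.Helper15.T8 Pool.Agent.Helper1.T8

/-- The number of admissible ordered edges. -/
theorem sw2_low {n D j : ℕ} {E : Finset (Sym2 (Fin n))} (hD : ∀ v, dg E v ≤ D)
    (hs : ∑ v, dg E v = 2 * j) (u v : Fin n) :
    2 * j ≤ ((univ : Finset (Fin n × Fin n)).filter (fun p => (p.1 ≠ u ∧ p.1 ≠ v ∧ p.2 ≠ u ∧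
      p.2 ≠ v) ∧ s(p.1, p.2) ∈ E ∧ s(u, p.1) ∉ E ∧ s(v, p.2) ∉ E)).card + (4 * D + 2 * D ^ 2) := by
  classical
  set G := (univ : Finset (Fin n × Fin n)).filter (fun p => (p.1 ≠ u ∧ p.1 ≠ v ∧ p.2 ≠ u ∧
      p.2 ≠ v) ∧ s(p.1, p.2) ∈ E ∧ s(u, p.1) ∉ E ∧ s(v, p.2) ∉ E) with hG
  set N : Fin n → Finset (Fin n) := fun v => (univ : Finset (Fin n)).filter (fun x => s(v, x) ∈ E)
    with hN
  have hNc : ∀ v, (N v).card ≤ D := fun v => by rw [hN]; dsimp only; rw [sw1_nbr]; exact hD v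
  have hmem : ∀ a b, b ∈ N a ↔ s(a, b) ∈ E := fun a b => by simp [hN]
  set B : Fin n → Finset (Fin n × Fin n) := fun w => (N w).image (fun y => (w, y)) with hB
  set B' : Fin n → Finset (Fin n × Fin n) := fun w => (N w).image (fun y => (y, w)) with hB'
  set B3 := (N u).biUnion (fun x => (N x).image (fun y => (x, y))) with hB3
  set B4 := (N v).biUnion (fun y => (N y).image (fun x => (x, y))) with hB4
  have hsub : (univ : Finset (Fin n × Fin n)).filter (fun p => s(p.1, p.2) ∈ E) ⊆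
      G ∪ (((B u ∪ B v) ∪ (B' u ∪ B' v)) ∪ (B3 ∪ B4)) := by
    rintro ⟨x, y⟩ hp
    simp only [mem_filter, mem_univ, true_and] at hp
    have hp' : s(y, x) ∈ E := by rw [Sym2.eq_swap]; exact hp
    by_cases h1 : x = u
    · subst h1
      simp [hB, hmem, hp]
    by_cases h2 : x = v
    · subst h2
      simp [hB, hmem, hp]
    by_cases h3 : y = u
    · subst h3
      simp [hB', hmem, hp']
    by_cases h4 : y = v
    · subst h4
      simp [hB', hmem, hp']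
    by_cases h5 : s(u, x) ∈ E
    · simp [hB3, hmem, h5, hp]
    by_cases h6 : s(v, y) ∈ E
    · simp [hB4, hmem, h6, hp']
    · simp [hG, h1, h2, h3, h4, h5, h6, hp]
  have c1 : ∀ w, (B w).card ≤ D := fun w => Finset.card_image_le.trans (hNc w)
  have c2 : ∀ w, (B' w).card ≤ D := fun w => Finset.card_image_le.trans (hNc w)
  have c3 : B3.card ≤ D * D := by
    refine (Finset.card_biUnion_le_card_mul _ _ D ?_).trans (Nat.mul_le_mul_right _ (hNc u))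
    intro x _
    exact Finset.card_image_le.trans (hNc x)
  have c4 : B4.card ≤ D * D := by
    refine (Finset.card_biUnion_le_card_mul _ _ D ?_).trans (Nat.mul_le_mul_right _ (hNc v))
    intro x _
    exact Finset.card_image_le.trans (hNc x)
  have := Finset.card_le_card hsub
  rw [sw1_pairs, hs] at this
  have u1 := Finset.card_union_le G (((B u ∪ B v) ∪ (B' u ∪ B' v)) ∪ (B3 ∪ B4))
  have u2 := Finset.card_union_le ((B u ∪ B v) ∪ (B' u ∪ B' v)) (B3 ∪ B4)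
  have u3 := Finset.card_union_le (B u ∪ B v) (B' u ∪ B' v)
  have u4 := Finset.card_union_le (B u) (B v)
  have u5 := Finset.card_union_le (B' u) (B' v)
  have u6 := Finset.card_union_le B3 B4
  have d1 := c1 u
  have d2 := c1 v
  have d3 := c2 u
  have d4 := c2 v
  have : D * D = D ^ 2 := by ring
  omega

theorem sw_card {n : ℕ} {E : Finset (Sym2 (Fin n))} {v x y : Fin n} (h3 : s(x, y) ∈ E)
    (h4 : s(v, x) ∉ E) : (sw E v x y).card = E.card := by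
  unfold sw
  rw [Finset.card_insert_of_notMem (fun h => h4 (Finset.mem_of_mem_erase h)),
    Finset.card_erase_of_mem h3]
  have : 0 < E.card := Finset.card_pos.2 ⟨_, h3⟩
  omega

theorem sw_diag {n : ℕ} {E : Finset (Sym2 (Fin n))} {v x y : Fin n}
    (h : ∀ e ∈ E, ¬ e.IsDiag) (hvx : v ≠ x) : ∀ e ∈ sw E v x y, ¬ e.IsDiag := by
  intro e he
  unfold sw at he
  rw [Finset.mem_insert] at he
  rcases he with rfl | he
  · simpa using hvx
  · exact h e (Finset.mem_of_mem_erase he)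

theorem mem_sw {n : ℕ} {E : Finset (Sym2 (Fin n))} {v x y : Fin n} (e : Sym2 (Fin n)) :
    e ∈ sw E v x y ↔ e = s(v, x) ∨ (e ≠ s(x, y) ∧ e ∈ E) := by
  unfold sw
  rw [Finset.mem_insert, Finset.mem_erase]

/-- The switched graph. -/
def ss {n : ℕ} (E : Finset (Sym2 (Fin n))) (u v x y : Fin n) : Finset (Sym2 (Fin n)) :=
  sw (sw E u x y) y v u

theorem ss_c1 {n : ℕ} {E : Finset (Sym2 (Fin n))} {u v x y : Fin n} (hxu : x ≠ u) (hyu : y ≠ u)
    (huv : s(u, v) ∈ E) : s(v, u) ∈ sw E u x y := by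
  rw [mem_sw]
  right
  refine ⟨?_, by rw [Sym2.eq_swap]; exact huv⟩
  intro h
  have : u ∈ s(x, y) := by rw [← h]; simp
  rw [Sym2.mem_iff] at this
  rcases this with h1 | h1
  · exact hxu h1.symm
  · exact hyu h1.symm

theorem ss_c2 {n : ℕ} {E : Finset (Sym2 (Fin n))} {u v x y : Fin n} (huv : u ≠ v)
    (hyu : y ≠ u) (hxv : x ≠ v) (h : s(v, y) ∉ E) : s(y, v) ∉ sw E u x y := by
  rw [mem_sw]
  rintro (h1 | h1)
  · rw [Sym2.eq_iff] at h1
    rcases h1 with ⟨h2, _⟩ | ⟨_, h3⟩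
    · exact hyu h2
    · exact huv h3.symm
  · apply h
    rw [Sym2.eq_swap]
    exact h1.2

theorem ss_dg {n : ℕ} {E : Finset (Sym2 (Fin n))} {u v x y : Fin n} (huv : u ≠ v)
    (hxy : x ≠ y) (hxu : x ≠ u) (hxv : x ≠ v) (hyu : y ≠ u) (hyv : y ≠ v) (h1 : s(u, v) ∈ E)
    (h2 : s(x, y) ∈ E) (h3 : s(u, x) ∉ E) (h4 : s(v, y) ∉ E) (w : Fin n) :
    dg (ss E u v x y) w = dg E w := by
  have e1 := sw_dg (E := E) (v := u) (x := x) (y := y) h2 h3 w
  have e2 := sw_dg (E := sw E u x y) (v := y) (x := v) (y := u) (ss_c1 hxu hyu h1)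
    (ss_c2 huv hyu hxv h4) w
  have e3 : (if w ∈ s(x, y) then 1 else 0) + (if w ∈ s(v, u) then 1 else 0) =
      (if w ∈ s(u, x) then 1 else 0) + (if w ∈ s(y, v) then 1 else 0) := by
    simp only [Sym2.mem_iff]
    by_cases a : w = u
    · subst a
      simp [hxu.symm, hyu.symm, huv]
    by_cases b : w = v
    · subst b
      simp [hxv.symm, hyv.symm, huv.symm]
    by_cases c : w = x
    · subst c
      simp [hxy, hxu, hxv]
    by_cases dd : w = y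
    · subst dd
      simp [hxy.symm, hyu, hyv]
    simp [a, b, c, dd]
  unfold ss
  omega

theorem ss_mem {n D : ℕ} {W : Finset (Fin n)} {j : ℕ} {E : Finset (Sym2 (Fin n))}
    {u v x y : Fin n} (hE : E ∈ GJ n D W j) (huv : u ≠ v) (h1 : s(u, v) ∈ E) (hu : dg E u < D)
    (hv : dg E v < D) (hxu : x ≠ u) (hxv : x ≠ v) (hyu : y ≠ u) (hyv : y ≠ v)
    (h2 : s(x, y) ∈ E) (h3 : s(u, x) ∉ E) (h4 : s(v, y) ∉ E) :
    ss E u v x y ∈ GJ n D W j ∧ dg (ss E u v x y) u < D ∧ dg (ss E u v x y) v < D ∧ u ∉ W ∧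
      v ∉ W ∧ s(u, x) ∈ ss E u v x y ∧ s(v, y) ∈ ss E u v x y := by
  obtain ⟨⟨a1, a2, a3⟩, a4⟩ := sw1_mem_GJ.1 hE
  have hxy : x ≠ y := fun h => a1 _ h2 (by simp [h])
  have hdg := ss_dg huv hxy hxu hxv hyu hyv h1 h2 h3 h4
  have hpos : ∀ w, w ∈ s(u, v) → 0 < dg E w := by
    intro w hw
    exact Finset.card_pos.2 ⟨_, Finset.mem_filter.2 ⟨h1, hw⟩⟩
  have hW : ∀ w, w ∈ s(u, v) → w ∉ W := fun w hw h => by
    have := hpos w hw
    rw [a3 w h] at this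
    exact lt_irrefl _ this
  refine ⟨sw1_mem_GJ.2 ⟨⟨?_, ?_, ?_⟩, ?_⟩, ?_, ?_, hW u (by simp), hW v (by simp), ?_, ?_⟩
  · unfold ss
    exact sw_diag (sw_diag a1 hxu.symm) hyv
  · intro w
    rw [hdg]
    exact a2 w
  · intro w hw
    rw [hdg]
    exact a3 w hw
  · unfold ss
    rw [sw_card (ss_c1 hxu hyu h1) (ss_c2 huv hyu hxv h4), sw_card h2 h3, a4]
  · rw [hdg]; exact hu
  · rw [hdg]; exact hv
  · unfold ss
    rw [mem_sw]
    right
    refine ⟨?_, ?_⟩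
    · intro h
      rw [Sym2.eq_iff] at h
      rcases h with ⟨h5, _⟩ | ⟨_, h6⟩
      · exact huv h5
      · exact hxv h6
    · rw [mem_sw]
      left
      rfl
  · unfold ss
    rw [mem_sw]
    left
    exact Sym2.eq_swap

theorem ss_inj {n : ℕ} {E E' : Finset (Sym2 (Fin n))} {u v x y : Fin n} (huv : u ≠ v)
    (hxu : x ≠ u) (hxv : x ≠ v) (hyu : y ≠ u) (h1 : s(u, v) ∈ E)
    (h2 : s(x, y) ∈ E) (h3 : s(u, x) ∉ E) (h4 : s(v, y) ∉ E) (h1' : s(u, v) ∈ E')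
    (h2' : s(x, y) ∈ E') (h3' : s(u, x) ∉ E') (h4' : s(v, y) ∉ E')
    (h : ss E u v x y = ss E' u v x y) : E = E' := by
  refine sw_inj h2 h3 h2' h3' (sw_inj (ss_c1 hxu hyu h1) (ss_c2 huv hyu hxv h4)
    (ss_c1 hxu hyu h1') (ss_c2 huv hyu hxv h4') h)

theorem st_SW2 (hB : ST_BAS) : ST_SW2 := by
  classical
  intro n D W j
  set A : Finset (Σ _ : Finset (Sym2 (Fin n)), Σ _ : Fin n × Fin n, Fin n × Fin n) :=
    (GJ n D W j).sigma (fun E => ((univ : Finset (Fin n × Fin n)).filter (fun p => p.1 ≠ p.2 ∧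
      s(p.1, p.2) ∈ E ∧ dg E p.1 < D ∧ dg E p.2 < D)).sigma (fun q =>
      (univ : Finset (Fin n × Fin n)).filter (fun p => (p.1 ≠ q.1 ∧ p.1 ≠ q.2 ∧ p.2 ≠ q.1 ∧
      p.2 ≠ q.2) ∧ s(p.1, p.2) ∈ E ∧ s(q.1, p.1) ∉ E ∧ s(q.2, p.2) ∉ E))) with hA
  set A' : Finset (Σ _ : Finset (Sym2 (Fin n)), Σ _ : Fin n × Fin n, Fin n × Fin n) :=
    (GJ n D W j).sigma (fun E => ((Wᶜ.filter (fun v => dg E v < D)) ×ˢ
      (Wᶜ.filter (fun v => dg E v < D))).sigma (fun p =>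
        ((univ : Finset (Fin n)).filter (fun x => s(p.1, x) ∈ E)) ×ˢ
        ((univ : Finset (Fin n)).filter (fun x => s(p.2, x) ∈ E)))) with hA'
  have hle : A.card ≤ A'.card := by
    refine Finset.card_le_card_of_injOn (fun t => ⟨ss t.1 t.2.1.1 t.2.1.2 t.2.2.1 t.2.2.2,
      t.2.1, t.2.2⟩) ?_ ?_
    · rintro ⟨E, ⟨u, v⟩, x, y⟩ ht
      simp only [hA, coe_sigma, Set.mem_sigma_iff, mem_coe, mem_filter, mem_univ, true_and,
        mem_compl, mem_sigma] at ht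
      obtain ⟨t1, ⟨t2, t3, t4, t5⟩, ⟨t6, t7, t8, t9⟩, t10, t11, t12⟩ := ht
      obtain ⟨r1, r2, r3, r4, r5, r6, r7⟩ := ss_mem t1 t2 t3 t4 t5 t6 t7 t8 t9 t10 t11 t12
      simp only [hA', mem_coe, mem_sigma, mem_product, mem_filter, mem_univ, true_and, mem_compl]
      exact ⟨r1, ⟨⟨r4, r2⟩, r5, r3⟩, r6, r7⟩
    · rintro ⟨E, ⟨u, v⟩, x, y⟩ ht ⟨E', ⟨u', v'⟩, x', y'⟩ ht' h
      simp only [hA, coe_sigma, Set.mem_sigma_iff, mem_coe, mem_filter, mem_univ, true_and,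
        mem_compl, mem_sigma] at ht ht'
      obtain ⟨t1, ⟨t2, t3, t4, t5⟩, ⟨t6, t7, t8, t9⟩, t10, t11, t12⟩ := ht
      obtain ⟨t1', ⟨t2', t3', t4', t5'⟩, ⟨t6', t7', t8', t9'⟩, t10', t11', t12'⟩ := ht'
      simp only [Sigma.mk.injEq, Prod.mk.injEq, heq_eq_eq] at h
      obtain ⟨r1, ⟨r2, r3⟩, r4, r5⟩ := h
      subst r2 r3 r4 r5
      have := ss_inj t2 t6 t7 t8 t3 t10 t11 t12 t3' t10' t11' t12' r1
      subst this
      rfl
  have hup : A'.card ≤ (GJ n D W j).card * (FJ n D W j * FJ n D W j * (D * D)) := by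
    rw [hA', Finset.card_sigma]
    refine (Finset.sum_le_card_nsmul _ _ (FJ n D W j * FJ n D W j * (D * D)) ?_).trans
      (by rw [smul_eq_mul])
    intro E hE
    have hF := def_card (hB n D W j E hE).2.1
    have h2 := (sw1_mem_GJ.1 hE).1.2.1
    rw [Finset.card_sigma]
    refine (Finset.sum_le_card_nsmul _ _ (D * D) ?_).trans ?_
    · intro p _
      rw [Finset.card_product, sw1_nbr, sw1_nbr]
      exact Nat.mul_le_mul (h2 _) (h2 _)
    · rw [smul_eq_mul, Finset.card_product]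
      exact Nat.mul_le_mul_right _ (Nat.mul_le_mul hF hF)
  have hlow : (2 * (j : ℝ) - 4 * D - 2 * D ^ 2) *
    ∑ E ∈ GJ n D W j, ((((univ : Finset (Fin n × Fin n)).filter (fun p => p.1 ≠ p.2 ∧
      s(p.1, p.2) ∈ E ∧ dg E p.1 < D ∧ dg E p.2 < D)).card : ℕ) : ℝ) ≤ (A.card : ℝ) := by
    rw [hA, Finset.card_sigma, Nat.cast_sum, Finset.mul_sum]
    refine Finset.sum_le_sum fun E hE => ?_
    have h2 := (sw1_mem_GJ.1 hE).1.2.1
    rw [Finset.card_sigma, Nat.cast_sum, mul_comm, ← nsmul_eq_mul]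
    refine Finset.card_nsmul_le_sum _ _ _ fun q _ => ?_
    have h3 := sw2_low h2 (hB n D W j E hE).2.2.2 q.1 q.2
    have h4 : ((2 * j : ℕ) : ℝ) ≤ ((((univ : Finset (Fin n × Fin n)).filter (fun p =>
      (p.1 ≠ q.1 ∧ p.1 ≠ q.2 ∧ p.2 ≠ q.1 ∧ p.2 ≠ q.2) ∧ s(p.1, p.2) ∈ E ∧ s(q.1, p.1) ∉ E ∧
      s(q.2, p.2) ∉ E)).card + (4 * D + 2 * D ^ 2) : ℕ) : ℝ) := by
      exact_mod_cast h3
    push_cast at h4
    linarith
  refine hlow.trans ?_
  have h5 : (A.card : ℝ) ≤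
      (((GJ n D W j).card * (FJ n D W j * FJ n D W j * (D * D)) : ℕ) : ℝ) := by
    exact_mod_cast hle.trans hup
  refine h5.trans (le_of_eq ?_)
  push_cast
  ring

end Pool.Agent.Helper20.T8
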